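import Mathlib
import Pool.Agent.Helper964.Ros.Space5

set_option autoImplicit false

namespace Pool.Agent.Results.MP_55041d_an.NoCkNorm

/-- `N` is an equivalent norm on `X`. -/
def IsEquivNorm {X : Type} [NormedAddCommGroup X] [NormedSpace ℝ X] (N : X → ℝ) : Prop :=
  (∀ x y : X, N (x + y) ≤ N x + N y) ∧
  (∀ (r : ℝ) (x : X), N (r • x) = |r| * N x) ∧
  (∃ a b : ℝ, 0 < a ∧ 0 < b ∧ ∀ x : X, a * ‖x‖ ≤ N x ∧ N x ≤ b * ‖x‖)

/-- There is a separable real Banach space with a bump function that is `C^m` for every `m`,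
which for every `k ≥ 5` has no equivalent norm that is `C^k` away from the origin. -/
theorem result :
    ∃ (X : Type) (_ : NormedAddCommGroup X) (_ : NormedSpace ℝ X),
      CompleteSpace X ∧ TopologicalSpace.SeparableSpace X ∧
      (∃ b : X → ℝ, (∀ m : ℕ, ContDiff ℝ m b) ∧ (∃ x, b x ≠ 0) ∧
        Bornology.IsBounded (tsupport b)) ∧
      ∀ k : ℕ, 5 ≤ k → ¬ ∃ N : X → ℝ, IsEquivNorm N ∧ ContDiffOn ℝ k N ({0}ᶜ : Set X) := by
  obtain ⟨X, i1, i2, hc, hs, _, ⟨P, hP⟩, hno⟩ := Helper964.Ros.exists_space5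
  refine ⟨X, i1, i2, hc, hs, Helper964.Ros.exists_bump P hP, ?_⟩
  rintro k hk ⟨N, ⟨h1, h2, h3⟩, h4⟩
  exact hno ⟨N, h1, h2, h3, h4.of_le (by exact_mod_cast hk)⟩

end Pool.Agent.Results.MP_55041d_an.NoCkNorm
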